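import Mathlib
import Pool.Agent.Helper26.Abc2.Roots

set_option autoImplicit false

/-!
# The triple fibre: primitive points on `a A ^ j + b B ^ j = c C ^ j` in a box
-/

namespace Pool.Agent.Helper92.ABC

open Finset

/-- Lower bound for the difference of `j`-th powers. -/
lemma pow_sub_lower {v w m : ℝ} (hm : 0 < m) (hv : m ≤ v) (hw : m ≤ w) {j : ℕ} (hj : 1 ≤ j) :
    |v - w| * m ^ (j - 1) ≤ |v ^ j - w ^ j| := by
  have hv0 : 0 < v := lt_of_lt_of_le hm hv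
  have hw0 : 0 < w := lt_of_lt_of_le hm hw
  rw [← Commute.geom_sum₂_mul (Commute.all v w) j, abs_mul, mul_comm]
  refine mul_le_mul_of_nonneg_right ?_ (abs_nonneg _)
  have h1 : v ^ 0 * w ^ (j - 1 - 0) ≤ ∑ i ∈ range j, v ^ i * w ^ (j - 1 - i) :=
    Finset.single_le_sum (f := fun i => v ^ i * w ^ (j - 1 - i))
      (fun i _ => by positivity) (by simp; omega)
  rw [pow_zero, one_mul, Nat.sub_zero] at h1
  refine le_trans ?_ (le_abs_self _)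
  exact le_trans (pow_le_pow_left₀ hm.le hw _) h1

/-- Upper bound for the difference of `j`-th powers. -/
lemma pow_sub_upper {u w U : ℝ} (hu0 : 0 ≤ u) (hw0 : 0 ≤ w) (hu : u ≤ U) (hw : w ≤ U) (j : ℕ) :
    |u ^ j - w ^ j| ≤ j * U ^ (j - 1) * |u - w| := by
  have hU : 0 ≤ U := le_trans hu0 hu
  rw [← Commute.geom_sum₂_mul (Commute.all u w) j, abs_mul]
  refine mul_le_mul_of_nonneg_right ?_ (abs_nonneg _)
  rw [abs_of_nonneg (Finset.sum_nonneg (fun i _ => by positivity))]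
  calc ∑ i ∈ range j, u ^ i * w ^ (j - 1 - i) ≤ ∑ i ∈ range j, U ^ (j - 1) := by
        refine Finset.sum_le_sum (fun i hi => ?_)
        have hi' : i < j := Finset.mem_range.mp hi
        calc u ^ i * w ^ (j - 1 - i) ≤ U ^ i * U ^ (j - 1 - i) :=
              mul_le_mul (pow_le_pow_left₀ hu0 hu _) (pow_le_pow_left₀ hw0 hw _)
                (by positivity) (by positivity)
          _ = U ^ (j - 1) := by rw [← pow_add]; congr 1; omega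
    _ = j * U ^ (j - 1) := by simp

/-- The determinant of three triples. -/
def tdet (P Q R : ℕ × ℕ × ℕ) : ℤ :=
  (P.1 : ℤ) * ((Q.2.1 : ℤ) * R.2.2 - Q.2.2 * R.2.1)
    - P.2.1 * ((Q.1 : ℤ) * R.2.2 - Q.2.2 * R.1)
    + P.2.2 * ((Q.1 : ℤ) * R.2.1 - Q.2.1 * R.1)

/-- Points of a plane section of the curve. -/
lemma card_plane (j : ℕ) (hj : 2 ≤ j) (a b c : ℕ) (ha : 1 ≤ a) (hb : 1 ≤ b) (hc : 1 ≤ c)
    (G : Finset (ℕ × ℕ × ℕ))
    (hG : ∀ P ∈ G, a * P.1 ^ j + b * P.2.1 ^ j = c * P.2.2 ^ j ∧ 0 < P.1 ∧ 0 < P.2.1 ∧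
        0 < P.2.2 ∧ P.1.Coprime P.2.1)
    (hdet : ∀ P ∈ G, ∀ Q ∈ G, ∀ R ∈ G, tdet P Q R = 0) : G.card ≤ j := by
  classical
  have hj0 : j ≠ 0 := by omega
  -- the ratio `A / B` determines the point
  have hinj : ∀ P ∈ G, ∀ Q ∈ G, P.1 * Q.2.1 = Q.1 * P.2.1 → P = Q := by
    intro P hP Q hQ h
    obtain ⟨hP1, hP2, hP3, hP4, hP5⟩ := hG P hP
    obtain ⟨hQ1, hQ2, hQ3, hQ4, hQ5⟩ := hG Q hQ
    have h1 : P.1 ∣ Q.1 := by
      have : P.1 ∣ Q.1 * P.2.1 := ⟨Q.2.1, h.symm⟩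
      exact hP5.dvd_of_dvd_mul_right this
    have h2 : Q.1 ∣ P.1 := by
      have : Q.1 ∣ P.1 * Q.2.1 := ⟨P.2.1, h⟩
      exact hQ5.dvd_of_dvd_mul_right this
    have h3 : P.1 = Q.1 := Nat.dvd_antisymm h1 h2
    have h4 : P.2.1 = Q.2.1 := by
      rw [h3] at h
      exact (Nat.eq_of_mul_eq_mul_left hQ2 h).symm
    have h5 : P.2.2 = Q.2.2 := by
      have : c * P.2.2 ^ j = c * Q.2.2 ^ j := by rw [← hP1, ← hQ1, h3, h4]
      exact Nat.pow_left_injective hj0 (Nat.eq_of_mul_eq_mul_left hc this)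
    exact Prod.ext h3 (Prod.ext h4 h5)
  by_cases h1 : G.card ≤ 1
  · omega
  obtain ⟨P, hP, Q, hQ, hPQ⟩ := Finset.one_lt_card.mp (not_le.mp h1)
  -- the plane
  set l : ℤ := (P.2.1 : ℤ) * Q.2.2 - P.2.2 * Q.2.1 with hl
  set m : ℤ := (P.2.2 : ℤ) * Q.1 - P.1 * Q.2.2 with hm
  set n : ℤ := (P.1 : ℤ) * Q.2.1 - P.2.1 * Q.1 with hn
  have hn0 : n ≠ 0 := by
    intro h0
    apply hPQ
    apply hinj P hP Q hQ
    have : (P.1 : ℤ) * Q.2.1 = Q.1 * P.2.1 := by rw [hn] at h0; linarith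
    exact_mod_cast this
  have hplane : ∀ R ∈ G, n * (R.2.2 : ℤ) = (-l) * R.1 + (-m) * R.2.1 := by
    intro R hR
    have := hdet R hR P hP Q hQ
    rw [tdet] at this
    rw [hl, hm, hn]
    linarith
  -- the polynomial
  set p : Polynomial ℚ := Polynomial.C ((n : ℚ) ^ j * a) * Polynomial.X ^ j
    + Polynomial.C ((n : ℚ) ^ j * b)
    - Polynomial.C (c : ℚ) * (Polynomial.C (-(l : ℚ)) * Polynomial.X + Polynomial.C (-(m : ℚ))) ^ j
    with hp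
  have hpdeg : p.natDegree ≤ j := by
    rw [hp]
    refine (Polynomial.natDegree_sub_le _ _).trans (max_le ?_ ?_)
    · refine (Polynomial.natDegree_add_le _ _).trans (max_le ?_ ?_)
      · exact Polynomial.natDegree_C_mul_X_pow_le _ _
      · rw [Polynomial.natDegree_C]; exact Nat.zero_le _
    · refine (Polynomial.natDegree_C_mul_le _ _).trans ?_
      refine (Polynomial.natDegree_pow_le).trans ?_
      have : (Polynomial.C (-(l : ℚ)) * Polynomial.X + Polynomial.C (-(m : ℚ))).natDegree ≤ 1 :=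
        Polynomial.natDegree_linear_le
      nlinarith
  have hp0 : p ≠ 0 := by
    intro h0
    have hnq : (n : ℚ) ^ j ≠ 0 := pow_ne_zero _ (by exact_mod_cast hn0)
    have hbq : (b : ℚ) ≠ 0 := by exact_mod_cast (by omega : b ≠ 0)
    have haq : (a : ℚ) ≠ 0 := by exact_mod_cast (by omega : a ≠ 0)
    have hcq : (c : ℚ) ≠ 0 := by exact_mod_cast (by omega : c ≠ 0)
    have hjq : (j : ℚ) ≠ 0 := by exact_mod_cast hj0
    -- value at 0
    have e0 : p.eval 0 = 0 := by rw [h0]; simp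
    have e1 : (Polynomial.derivative p).eval 0 = 0 := by rw [h0]; simp
    have hm0 : (-(m : ℚ)) ≠ 0 := by
      intro hm0
      rw [hp] at e0
      simp only [Polynomial.eval_sub, Polynomial.eval_add, Polynomial.eval_mul,
        Polynomial.eval_pow, Polynomial.eval_C, Polynomial.eval_X, mul_zero, zero_add, hm0,
        zero_pow hj0, sub_zero] at e0
      exact (mul_ne_zero hnq hbq) e0
    have hl0 : (-(l : ℚ)) = 0 := by
      rw [hp] at e1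
      simp only [Polynomial.derivative_sub, Polynomial.derivative_add,
        Polynomial.derivative_mul, Polynomial.derivative_C,
        Polynomial.derivative_pow, Polynomial.derivative_X,
        Polynomial.eval_sub, Polynomial.eval_add, Polynomial.eval_mul,
        Polynomial.eval_pow, Polynomial.eval_C, Polynomial.eval_X, mul_zero, zero_add,
        zero_mul, add_zero, mul_one, zero_pow (by omega : j - 1 ≠ 0)] at e1
      have e2 : (c : ℚ) * ((j : ℚ) * (-(m : ℚ)) ^ (j - 1) * (-(l : ℚ))) = 0 := by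
        linarith
      rcases mul_eq_zero.mp e2 with h | h
      · exact absurd h hcq
      · rcases mul_eq_zero.mp h with h | h
        · exact absurd h (mul_ne_zero hjq (pow_ne_zero _ hm0))
        · exact h
    -- value at 1 minus value at 0
    have e3 : p.eval 1 = 0 := by rw [h0]; simp
    rw [hp] at e0 e3
    simp only [Polynomial.eval_sub, Polynomial.eval_add, Polynomial.eval_mul,
        Polynomial.eval_pow, Polynomial.eval_C, Polynomial.eval_X, mul_zero, zero_add, hl0,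
        one_pow, mul_one, zero_pow hj0] at e0 e3
    exact (mul_ne_zero hnq haq) (by linarith)
  have hroot : ∀ R ∈ G, ((R.1 : ℚ) / R.2.1) ∈ p.roots.toFinset := by
    intro R hR
    obtain ⟨hR1, hR2, hR3, hR4, hR5⟩ := hG R hR
    rw [Multiset.mem_toFinset, Polynomial.mem_roots hp0, Polynomial.IsRoot.def, hp]
    simp only [Polynomial.eval_sub, Polynomial.eval_add, Polynomial.eval_mul,
        Polynomial.eval_pow, Polynomial.eval_C, Polynomial.eval_X]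
    have hB : (R.2.1 : ℚ) ≠ 0 := by exact_mod_cast hR3.ne'
    have h1 : (n : ℚ) * R.2.2 = (-(l : ℚ)) * R.1 + (-(m : ℚ)) * R.2.1 := by
      exact_mod_cast hplane R hR
    have h2 : (a : ℚ) * (R.1 : ℚ) ^ j + b * (R.2.1 : ℚ) ^ j = c * (R.2.2 : ℚ) ^ j := by
      exact_mod_cast hR1
    have h3 : (-(l : ℚ)) * ((R.1 : ℚ) / R.2.1) + (-(m : ℚ)) = (n : ℚ) * R.2.2 / R.2.1 := by
      rw [h1]; field_simp
    rw [h3, div_pow, div_pow, mul_pow]
    field_simp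
    have : (n : ℚ) ^ j * (a * (R.1 : ℚ) ^ j + b * (R.2.1 : ℚ) ^ j)
        = (n : ℚ) ^ j * (c * (R.2.2 : ℚ) ^ j) := by rw [h2]
    linarith
  have hcard : G.card ≤ p.roots.toFinset.card := by
    refine Finset.card_le_card_of_injOn (fun R => (R.1 : ℚ) / R.2.1) (fun R hR => hroot R hR) ?_
    intro R hR S hS h
    have hR' := hG R hR
    have hS' := hG S hS
    have hRB : (R.2.1 : ℚ) ≠ 0 := by exact_mod_cast hR'.2.2.1.ne'
    have hSB : (S.2.1 : ℚ) ≠ 0 := by exact_mod_cast hS'.2.2.1.ne'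
    simp only at h
    rw [div_eq_div_iff hRB hSB] at h
    exact hinj R hR S hS (by exact_mod_cast h)
  calc G.card ≤ p.roots.toFinset.card := hcard
    _ ≤ Multiset.card p.roots := Multiset.toFinset_card_le _
    _ ≤ p.natDegree := Polynomial.card_roots' p
    _ ≤ j := hpdeg

/-- Few residue classes of the slope of a point of `u x ^ j = w y ^ j` modulo `q`. -/
lemma exists_classes {j : ℕ} (hj : 1 ≤ j) {ε : ℝ} (hε : 0 < ε) :
    ∃ C : ℝ, 0 < C ∧ ∀ (q : ℕ) (u w : ℤ), 1 ≤ q → IsCoprime u (q : ℤ) → IsCoprime w (q : ℤ) →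
      ∃ S : Finset ℕ, (S.card : ℝ) ≤ C * (q : ℝ) ^ ε ∧
        ∀ x y : ℤ, IsCoprime y (q : ℤ) → (q : ℤ) ∣ u * x ^ j - w * y ^ j →
          ∃ r ∈ S, (q : ℤ) ∣ x - r * y := by
  obtain ⟨C, hC0, hC⟩ := Pool.Agent.Helper26.Abc2.card_roots_int (j := j) (by omega) hε
  refine ⟨C, hC0, ?_⟩
  intro q u w hq hu hw
  obtain ⟨u', k, huk⟩ := hu
  have hq' : (0 : ℤ) < q := by exact_mod_cast hq
  have hu' : IsCoprime u' (q : ℤ) := ⟨u, k, by linarith⟩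
  have hcop : IsCoprime (u' * w) (q : ℤ) := IsCoprime.mul_left hu' hw
  refine ⟨(Finset.range q).filter (fun x : ℕ => (q : ℤ) ∣ (x : ℤ) ^ j - u' * w),
    hC q (u' * w) hq hcop, ?_⟩
  intro x y hy hxy
  obtain ⟨y', l, hyl⟩ := hy
  set r : ℕ := ((x * y') % (q : ℤ)).toNat with hr
  have hrz : (r : ℤ) = (x * y') % (q : ℤ) := Int.toNat_of_nonneg (Int.emod_nonneg _ hq'.ne')
  have hrq : r < q := by
    have : (r : ℤ) < q := by rw [hrz]; exact Int.emod_lt_of_pos _ hq'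
    exact_mod_cast this
  have h1 : (q : ℤ) ∣ x * y' - r := by
    rw [hrz]; exact Int.dvd_self_sub_emod
  have h2 : (q : ℤ) ∣ x - r * y := by
    have : x - r * y = (x * y' - r) * y + x * l * q := by
      have : x = x * (y' * y + l * q) := by rw [hyl, mul_one]
      linear_combination this
    rw [this]
    exact dvd_add (Dvd.dvd.mul_right h1 _) (Dvd.intro_left _ rfl)
  refine ⟨r, ?_, h2⟩
  rw [Finset.mem_filter, Finset.mem_range]
  refine ⟨hrq, ?_⟩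
  have h3 : (q : ℤ) ∣ x ^ j - (r * y) ^ j := h2.trans (sub_dvd_pow_sub_pow _ _ j)
  have h4 : (q : ℤ) ∣ y ^ j * (u * (r : ℤ) ^ j - w) := by
    have : y ^ j * (u * (r : ℤ) ^ j - w)
        = (u * x ^ j - w * y ^ j) - u * (x ^ j - (r * y) ^ j) := by
      rw [mul_pow]; ring
    rw [this]
    exact dvd_sub hxy (Dvd.dvd.mul_left h3 _)
  have hyc : IsCoprime (q : ℤ) (y ^ j) := by
    have : IsCoprime y (q : ℤ) := ⟨y', l, hyl⟩
    exact (this.pow_left).symm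
  have h5 : (q : ℤ) ∣ u * (r : ℤ) ^ j - w := hyc.dvd_of_dvd_mul_left h4
  have h6 : (r : ℤ) ^ j - u' * w = u' * (u * (r : ℤ) ^ j - w) + (k * (r : ℤ) ^ j) * q := by
    linear_combination (-(r : ℤ) ^ j) * huk
  rw [h6]
  exact dvd_add (Dvd.dvd.mul_left h5 _) (Dvd.intro_left _ rfl)

/-- The determinant in terms of the slopes. -/
lemma tdet_eq (P Q R : ℕ × ℕ × ℕ) (hP : 0 < P.2.2) (hQ : 0 < Q.2.2) (hR : 0 < R.2.2) :
    ((tdet P Q R : ℤ) : ℝ) = ((P.2.2 : ℝ) * Q.2.2 * R.2.2) *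
      (((Q.1 : ℝ) / Q.2.2 - P.1 / P.2.2) * ((R.2.1 : ℝ) / R.2.2 - P.2.1 / P.2.2)
        - ((R.1 : ℝ) / R.2.2 - P.1 / P.2.2) * ((Q.2.1 : ℝ) / Q.2.2 - P.2.1 / P.2.2)) := by
  have h1 : (P.2.2 : ℝ) ≠ 0 := by exact_mod_cast hP.ne'
  have h2 : (Q.2.2 : ℝ) ≠ 0 := by exact_mod_cast hQ.ne'
  have h3 : (R.2.2 : ℝ) ≠ 0 := by exact_mod_cast hR.ne'
  rw [tdet]
  push_cast
  field_simp
  ring

lemma dvd_tdet_a (q : ℕ) (r : ℤ) (P Q R : ℕ × ℕ × ℕ) (hP : (q : ℤ) ∣ (P.2.1 : ℤ) - r * P.2.2)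
    (hQ : (q : ℤ) ∣ (Q.2.1 : ℤ) - r * Q.2.2) (hR : (q : ℤ) ∣ (R.2.1 : ℤ) - r * R.2.2) :
    (q : ℤ) ∣ tdet P Q R := by
  have : tdet P Q R = (-((Q.1 : ℤ) * R.2.2 - Q.2.2 * R.1)) * ((P.2.1 : ℤ) - r * P.2.2)
      + ((P.1 : ℤ) * R.2.2 - P.2.2 * R.1) * ((Q.2.1 : ℤ) - r * Q.2.2)
      + (-((P.1 : ℤ) * Q.2.2 - P.2.2 * Q.1)) * ((R.2.1 : ℤ) - r * R.2.2) := by
    rw [tdet]; ring
  rw [this]
  exact dvd_add (dvd_add (Dvd.dvd.mul_left hP _) (Dvd.dvd.mul_left hQ _)) (Dvd.dvd.mul_left hR _)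

lemma dvd_tdet_b (q : ℕ) (r : ℤ) (P Q R : ℕ × ℕ × ℕ) (hP : (q : ℤ) ∣ (P.1 : ℤ) - r * P.2.2)
    (hQ : (q : ℤ) ∣ (Q.1 : ℤ) - r * Q.2.2) (hR : (q : ℤ) ∣ (R.1 : ℤ) - r * R.2.2) :
    (q : ℤ) ∣ tdet P Q R := by
  have : tdet P Q R = ((Q.2.1 : ℤ) * R.2.2 - Q.2.2 * R.2.1) * ((P.1 : ℤ) - r * P.2.2)
      + (-((P.2.1 : ℤ) * R.2.2 - P.2.2 * R.2.1)) * ((Q.1 : ℤ) - r * Q.2.2)
      + ((P.2.1 : ℤ) * Q.2.2 - P.2.2 * Q.2.1) * ((R.1 : ℤ) - r * R.2.2) := by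
    rw [tdet]; ring
  rw [this]
  exact dvd_add (dvd_add (Dvd.dvd.mul_left hP _) (Dvd.dvd.mul_left hQ _)) (Dvd.dvd.mul_left hR _)

lemma dvd_tdet_c (q : ℕ) (r : ℤ) (P Q R : ℕ × ℕ × ℕ) (hP : (q : ℤ) ∣ (P.1 : ℤ) - r * P.2.1)
    (hQ : (q : ℤ) ∣ (Q.1 : ℤ) - r * Q.2.1) (hR : (q : ℤ) ∣ (R.1 : ℤ) - r * R.2.1) :
    (q : ℤ) ∣ tdet P Q R := by
  have : tdet P Q R = ((Q.2.1 : ℤ) * R.2.2 - Q.2.2 * R.2.1) * ((P.1 : ℤ) - r * P.2.1)
      + (-((P.2.1 : ℤ) * R.2.2 - P.2.2 * R.2.1)) * ((Q.1 : ℤ) - r * Q.2.1)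
      + ((P.2.1 : ℤ) * Q.2.2 - P.2.2 * Q.2.1) * ((R.1 : ℤ) - r * R.2.1) := by
    rw [tdet]; ring
  rw [this]
  exact dvd_add (dvd_add (Dvd.dvd.mul_left hP _) (Dvd.dvd.mul_left hQ _)) (Dvd.dvd.mul_left hR _)

/-- Two close points on the curve have close ordinates. -/
lemma slope_close {a b c u v u' v' U V : ℝ} {j : ℕ} (hj : 1 ≤ j) (ha : 0 < a) (hb : 0 < b)
    (hV : 0 < V) (hu : 0 ≤ u) (hu' : 0 ≤ u') (huU : u ≤ U) (huU' : u' ≤ U) (hv : V ≤ v)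
    (hv' : V ≤ v') (h : a * u ^ j + b * v ^ j = c) (h' : a * u' ^ j + b * v' ^ j = c) :
    |v - v'| ≤ j * (a / b) * (U / V) ^ (j - 1) * |u - u'| := by
  have h1 := pow_sub_lower hV hv hv' hj
  have h2 := pow_sub_upper hu hu' huU huU' j
  have h3 : b * |v ^ j - v' ^ j| = a * |u ^ j - u' ^ j| := by
    have h4 : |b * (v ^ j - v' ^ j)| = |a * (u ^ j - u' ^ j)| := by
      rw [show b * (v ^ j - v' ^ j) = -(a * (u ^ j - u' ^ j)) by linarith, abs_neg]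
    rwa [abs_mul, abs_mul, abs_of_pos ha, abs_of_pos hb] at h4
  have hVj : 0 < V ^ (j - 1) := pow_pos hV _
  rw [div_pow]
  have h4 : |v - v'| * V ^ (j - 1) * b ≤ a * (j * U ^ (j - 1) * |u - u'|) := by
    calc |v - v'| * V ^ (j - 1) * b ≤ |v ^ j - v' ^ j| * b :=
          mul_le_mul_of_nonneg_right h1 hb.le
      _ = a * |u ^ j - u' ^ j| := by rw [mul_comm, h3]
      _ ≤ _ := mul_le_mul_of_nonneg_left h2 ha.le
  rw [show (j : ℝ) * (a / b) * (U ^ (j - 1) / V ^ (j - 1)) * |u - u'|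
    = (a * (j * U ^ (j - 1) * |u - u'|)) / (V ^ (j - 1) * b) by field_simp]
  rw [le_div_iff₀ (by positivity)]
  linarith

/-- The determinant of three close points vanishes. -/
lemma tdet_zero {j : ℕ} (hj : 2 ≤ j) {a b c : ℕ} {A1 B0 C0 C1 K : ℝ} (ha : 1 ≤ a) (hb : 1 ≤ b)
    (hc : 1 ≤ c) (hab : a.Coprime b) (hbc : b.Coprime c) (hac : a.Coprime c)
    (hA1 : 0 < A1) (hB0 : 0 < B0) (hC0 : 0 < C0) (hC1 : C0 ≤ C1) (hK : 1 ≤ K)
    (hsize : 2 * j * C1 ^ 3 * (A1 / C0) ^ 2 * (A1 * C1 / (C0 * B0)) ^ (j - 1) <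
        (b : ℝ) ^ 2 * c * K ^ 2) (r s t : ℤ) (P Q R : ℕ × ℕ × ℕ) (F : Finset (ℕ × ℕ × ℕ))
    (hF : ∀ P ∈ F, a * P.1 ^ j + b * P.2.1 ^ j = c * P.2.2 ^ j ∧ 0 < P.1 ∧ 0 < P.2.1 ∧
        0 < P.2.2 ∧ (a * P.1 ^ j).Coprime (b * P.2.1 ^ j) ∧ (P.1 : ℝ) ≤ A1 ∧
        B0 ≤ (P.2.1 : ℝ) ∧ C0 ≤ (P.2.2 : ℝ) ∧ (P.2.2 : ℝ) ≤ C1)
    (hcl : ∀ P ∈ F, (a : ℤ) ∣ (P.2.1 : ℤ) - r * P.2.2 ∧ (b : ℤ) ∣ (P.1 : ℤ) - s * P.2.2 ∧
      (c : ℤ) ∣ (P.1 : ℤ) - t * P.2.1)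
    (hclose : ∀ P ∈ F, ∀ Q ∈ F, |(P.1 : ℝ) / P.2.2 - (Q.1 : ℝ) / Q.2.2| ≤ A1 / C0 / K)
    (hP : P ∈ F) (hQ : Q ∈ F) (hR : R ∈ F) : tdet P Q R = 0 := by
  have hK0 : 0 < K := by linarith
  have hC10 : 0 < C1 := by linarith
  have haR : (0 : ℝ) < a := by exact_mod_cast ha
  have hbR : (0 : ℝ) < b := by exact_mod_cast hb
  have hcR : (0 : ℝ) < c := by exact_mod_cast hc
  have hjR : (0 : ℝ) < j := by exact_mod_cast (by omega : 0 < j)
  -- divisibility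
  have d1 : (a : ℤ) ∣ tdet P Q R := dvd_tdet_a a r P Q R (hcl P hP).1 (hcl Q hQ).1 (hcl R hR).1
  have d2 : (b : ℤ) ∣ tdet P Q R :=
    dvd_tdet_b b s P Q R (hcl P hP).2.1 (hcl Q hQ).2.1 (hcl R hR).2.1
  have d3 : (c : ℤ) ∣ tdet P Q R :=
    dvd_tdet_c c t P Q R (hcl P hP).2.2 (hcl Q hQ).2.2 (hcl R hR).2.2
  have hab' : IsCoprime (a : ℤ) b := Nat.isCoprime_iff_coprime.mpr hab
  have hbc' : IsCoprime (b : ℤ) c := Nat.isCoprime_iff_coprime.mpr hbc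
  have hac' : IsCoprime (a : ℤ) c := Nat.isCoprime_iff_coprime.mpr hac
  have d4 : ((a : ℤ) * b) * c ∣ tdet P Q R :=
    (IsCoprime.mul_left hac' hbc').mul_dvd (hab'.mul_dvd d1 d2) d3
  by_contra hne
  have habs : ((a : ℤ) * b) * c ≤ |tdet P Q R| := by
    refine Int.le_of_dvd (abs_pos.mpr hne) ((dvd_abs _ _).mpr d4)
  have habs' : ((a : ℝ) * b) * c ≤ |((tdet P Q R : ℤ) : ℝ)| := by
    rw [← Int.cast_abs]; exact_mod_cast habs
  -- size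
  set U : ℝ := A1 / C0 with hU
  set V : ℝ := B0 / C1 with hV
  have hU0 : 0 < U := by positivity
  have hV0 : 0 < V := by positivity
  have hpt : ∀ P ∈ F, (0 : ℝ) ≤ (P.1 : ℝ) / P.2.2 ∧ (P.1 : ℝ) / P.2.2 ≤ U ∧
      V ≤ (P.2.1 : ℝ) / P.2.2 ∧
      (a : ℝ) * ((P.1 : ℝ) / P.2.2) ^ j + b * ((P.2.1 : ℝ) / P.2.2) ^ j = c := by
    intro P hP
    obtain ⟨h1, h2, h3, h4, h5, h6, h7, h8, h9⟩ := hF P hP
    have hC : (0 : ℝ) < P.2.2 := by exact_mod_cast h4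
    refine ⟨by positivity, ?_, ?_, ?_⟩
    · rw [hU]
      exact div_le_div₀ hA1.le h6 hC0 h8
    · rw [hV]
      exact div_le_div₀ (by positivity) h7 hC h9
    · have h1' : (a : ℝ) * (P.1 : ℝ) ^ j + b * (P.2.1 : ℝ) ^ j = c * (P.2.2 : ℝ) ^ j := by
        exact_mod_cast h1
      rw [div_pow, div_pow]
      field_simp
      linarith
  set E : ℝ := j * (a / b) * (U / V) ^ (j - 1) * (U / K) with hE
  have hUK : 0 < U / K := by positivity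
  have hE0 : 0 < E := by positivity
  have hclv : ∀ P ∈ F, ∀ Q ∈ F, |(P.2.1 : ℝ) / P.2.2 - (Q.2.1 : ℝ) / Q.2.2| ≤ E := by
    intro P hP Q hQ
    obtain ⟨p1, p2, p3, p4⟩ := hpt P hP
    obtain ⟨q1, q2, q3, q4⟩ := hpt Q hQ
    refine (slope_close (by omega) haR hbR hV0 p1 q1 p2 q2 p3 q3 p4 q4).trans ?_
    rw [hE]
    exact mul_le_mul_of_nonneg_left (hclose P hP Q hQ) (by positivity)
  obtain ⟨_, _, _, p4, _, _, _, _, p9⟩ := hF P hP
  obtain ⟨_, _, _, q4, _, _, _, _, q9⟩ := hF Q hQ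
  obtain ⟨_, _, _, r4, _, _, _, _, r9⟩ := hF R hR
  have hbound : |((tdet P Q R : ℤ) : ℝ)| ≤ C1 ^ 3 * (2 * (U / K) * E) := by
    rw [tdet_eq P Q R p4 q4 r4, abs_mul]
    refine mul_le_mul ?_ ?_ (abs_nonneg _) (by positivity)
    · rw [abs_of_nonneg (by positivity)]
      calc (P.2.2 : ℝ) * Q.2.2 * R.2.2 ≤ C1 * C1 * C1 := by gcongr
        _ = C1 ^ 3 := by ring
    · refine (abs_sub _ _).trans ?_
      rw [abs_mul, abs_mul]
      have e1 := hclose Q hQ P hP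
      have e2 := hclose R hR P hP
      have e3 := hclv Q hQ P hP
      have e4 := hclv R hR P hP
      have e5 := mul_le_mul e1 e4 (abs_nonneg _) hUK.le
      have e6 := mul_le_mul e2 e3 (abs_nonneg _) hUK.le
      linarith
  have hUV : U / V = A1 * C1 / (C0 * B0) := by
    rw [hU, hV]; field_simp
  rw [← hUV] at hsize
  have hfin : C1 ^ 3 * (2 * (U / K) * E) < (a : ℝ) * b * c := by
    have h1 : C1 ^ 3 * (2 * (U / K) * E)
        = (2 * j * C1 ^ 3 * U ^ 2 * (U / V) ^ (j - 1)) * (a / (b * K ^ 2)) := by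
      rw [hE]; field_simp
    have h2 : (a : ℝ) * b * c = ((b : ℝ) ^ 2 * c * K ^ 2) * (a / (b * K ^ 2)) := by
      field_simp
    rw [h1, h2]
    exact mul_lt_mul_of_pos_right hsize (by positivity)
  linarith

/-- **Triple fibre.** Primitive points on `a A ^ j + b B ^ j = c C ^ j` in a box. -/
theorem triple_fiber (j : ℕ) (hj : 2 ≤ j) (ε : ℝ) (hε : 0 < ε) :
    ∃ C : ℝ, 0 < C ∧ ∀ (a b c : ℕ) (A1 B0 C0 C1 K : ℝ) (F : Finset (ℕ × ℕ × ℕ)),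
      1 ≤ a → 1 ≤ b → 1 ≤ c → a.Coprime b → b.Coprime c → a.Coprime c →
      0 < A1 → 0 < B0 → 0 < C0 → C0 ≤ C1 → 1 ≤ K →
      2 * j * C1 ^ 3 * (A1 / C0) ^ 2 * (A1 * C1 / (C0 * B0)) ^ (j - 1) <
        (b : ℝ) ^ 2 * c * K ^ 2 →
      (∀ P ∈ F, a * P.1 ^ j + b * P.2.1 ^ j = c * P.2.2 ^ j ∧ 0 < P.1 ∧ 0 < P.2.1 ∧
        0 < P.2.2 ∧ (a * P.1 ^ j).Coprime (b * P.2.1 ^ j) ∧ (P.1 : ℝ) ≤ A1 ∧
        B0 ≤ (P.2.1 : ℝ) ∧ C0 ≤ (P.2.2 : ℝ) ∧ (P.2.2 : ℝ) ≤ C1) →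
      (F.card : ℝ) ≤ C * ((a * b * c : ℕ) : ℝ) ^ ε * K := by
  classical
  obtain ⟨C, hC0, hC⟩ := exists_classes (j := j) (by omega) hε
  refine ⟨2 * j * C ^ 3, by positivity, ?_⟩
  intro a b c A1 B0 C0 C1 K F ha hb hc hab hbc hac hA1 hB0 hC0' hC1 hK hsize hF
  have hj0 : j ≠ 0 := by omega
  have hK0 : 0 < K := by linarith
  have iab : IsCoprime (a : ℤ) b := Nat.isCoprime_iff_coprime.mpr hab
  have ibc : IsCoprime (b : ℤ) c := Nat.isCoprime_iff_coprime.mpr hbc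
  have iac : IsCoprime (a : ℤ) c := Nat.isCoprime_iff_coprime.mpr hac
  obtain ⟨Sa, hSa, hSa'⟩ := hC a b c ha iab.symm iac.symm
  obtain ⟨Sb, hSb, hSb'⟩ := hC b a c hb iab ibc.symm
  obtain ⟨Sc, hSc, hSc'⟩ := hC c a (-b) hc iac ibc.neg_left
  -- the classes of the points
  have hclass : ∀ P ∈ F, (∃ r ∈ Sa, (a : ℤ) ∣ (P.2.1 : ℤ) - (r : ℕ) * P.2.2) ∧
      (∃ s ∈ Sb, (b : ℤ) ∣ (P.1 : ℤ) - (s : ℕ) * P.2.2) ∧
      (∃ t ∈ Sc, (c : ℤ) ∣ (P.1 : ℤ) - (t : ℕ) * P.2.1) := by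
    intro P hP
    obtain ⟨h1, h2, h3, h4, h5, -⟩ := hF P hP
    have hz : (a : ℤ) * (P.1 : ℤ) ^ j + b * (P.2.1 : ℤ) ^ j = c * (P.2.2 : ℤ) ^ j := by
      exact_mod_cast h1
    have k1 : (a * P.1 ^ j).Coprime (c * P.2.2 ^ j) := by
      rw [← h1]
      exact (Nat.coprime_self_add_right).mpr h5
    have k2 : (b * P.2.1 ^ j).Coprime (c * P.2.2 ^ j) := by
      rw [← h1]
      exact (Nat.coprime_add_self_right).mpr h5.symm
    have c1 : P.2.2.Coprime a :=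
      (Nat.Coprime.coprime_dvd_left (Dvd.dvd.mul_left (dvd_pow_self _ hj0) _)
        (Nat.Coprime.coprime_dvd_right (Dvd.intro _ rfl) k1.symm))
    have c2 : P.2.2.Coprime b :=
      (Nat.Coprime.coprime_dvd_left (Dvd.dvd.mul_left (dvd_pow_self _ hj0) _)
        (Nat.Coprime.coprime_dvd_right (Dvd.intro _ rfl) k2.symm))
    have c3 : P.2.1.Coprime c :=
      (Nat.Coprime.coprime_dvd_left (Dvd.dvd.mul_left (dvd_pow_self _ hj0) _)
        (Nat.Coprime.coprime_dvd_right (Dvd.intro _ rfl) k2))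
    refine ⟨?_, ?_, ?_⟩
    · exact hSa' P.2.1 P.2.2 (Nat.isCoprime_iff_coprime.mpr c1)
        ⟨-(P.1 : ℤ) ^ j, by linear_combination hz⟩
    · exact hSb' P.1 P.2.2 (Nat.isCoprime_iff_coprime.mpr c2)
        ⟨-(P.2.1 : ℤ) ^ j, by linear_combination hz⟩
    · exact hSc' P.1 P.2.1 (Nat.isCoprime_iff_coprime.mpr c3)
        ⟨(P.2.2 : ℤ) ^ j, by linear_combination hz⟩
  have hr : ∀ P : ℕ × ℕ × ℕ, ∃ r : ℕ, P ∈ F → r ∈ Sa ∧ (a : ℤ) ∣ (P.2.1 : ℤ) - r * P.2.2 := by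
    intro P
    by_cases hP : P ∈ F
    · obtain ⟨r, h1, h2⟩ := (hclass P hP).1
      exact ⟨r, fun _ => ⟨h1, h2⟩⟩
    · exact ⟨0, fun h => absurd h hP⟩
  have hs : ∀ P : ℕ × ℕ × ℕ, ∃ r : ℕ, P ∈ F → r ∈ Sb ∧ (b : ℤ) ∣ (P.1 : ℤ) - r * P.2.2 := by
    intro P
    by_cases hP : P ∈ F
    · obtain ⟨r, h1, h2⟩ := (hclass P hP).2.1
      exact ⟨r, fun _ => ⟨h1, h2⟩⟩
    · exact ⟨0, fun h => absurd h hP⟩
  have ht : ∀ P : ℕ × ℕ × ℕ, ∃ r : ℕ, P ∈ F → r ∈ Sc ∧ (c : ℤ) ∣ (P.1 : ℤ) - r * P.2.1 := by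
    intro P
    by_cases hP : P ∈ F
    · obtain ⟨r, h1, h2⟩ := (hclass P hP).2.2
      exact ⟨r, fun _ => ⟨h1, h2⟩⟩
    · exact ⟨0, fun h => absurd h hP⟩
  choose fr hfr using hr
  choose fs hfs using hs
  choose ft hft using ht
  set U : ℝ := A1 / C0 with hU
  have hU0 : 0 < U := by positivity
  set M : ℕ := ⌊K⌋₊ with hM
  set g : ℕ × ℕ × ℕ → ℕ := fun P => ⌊(P.1 : ℝ) / P.2.2 * K / U⌋₊ with hg
  set f : ℕ × ℕ × ℕ → ℕ × ℕ × ℕ × ℕ := fun P => (fr P, fs P, ft P, g P) with hf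
  set T : Finset (ℕ × ℕ × ℕ × ℕ) := Sa ×ˢ (Sb ×ˢ (Sc ×ˢ Finset.range (M + 1))) with hT
  have hmaps : ∀ P ∈ F, f P ∈ T := by
    intro P hP
    obtain ⟨h1, h2, h3, h4, h5, h6, h7, h8, h9⟩ := hF P hP
    have hCp : (0 : ℝ) < P.2.2 := by exact_mod_cast h4
    simp only [hT, hf, Finset.mem_product, Finset.mem_range]
    refine ⟨(hfr P hP).1, (hfs P hP).1, (hft P hP).1, ?_⟩
    rw [hg, hM, Nat.lt_succ_iff]
    refine Nat.floor_le_floor ?_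
    rw [div_le_iff₀ hU0, mul_comm K U]
    refine mul_le_mul_of_nonneg_right ?_ hK0.le
    rw [hU]
    exact div_le_div₀ hA1.le h6 hC0' h8
  have hfib : ∀ y ∈ T, (F.filter (fun P => f P = y)).card ≤ j := by
    intro y _
    refine card_plane j hj a b c ha hb hc _ ?_ ?_
    · intro P hP
      obtain ⟨h1, h2, h3, h4, h5, -⟩ := hF P (Finset.mem_filter.mp hP).1
      refine ⟨h1, h2, h3, h4, ?_⟩
      exact (Nat.Coprime.coprime_dvd_left (Dvd.dvd.mul_left (dvd_pow_self _ hj0) _)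
        (Nat.Coprime.coprime_dvd_right (Dvd.dvd.mul_left (dvd_pow_self _ hj0) _) h5))
    · intro P hP Q hQ R hR
      refine tdet_zero hj ha hb hc hab hbc hac hA1 hB0 hC0' hC1 hK hsize y.1 y.2.1 y.2.2.1
        P Q R (F.filter (fun P => f P = y)) ?_ ?_ ?_ hP hQ hR
      · intro P hP
        exact hF P (Finset.mem_filter.mp hP).1
      · intro P hP
        obtain ⟨hPF, hPy⟩ := Finset.mem_filter.mp hP
        rw [← hPy]
        exact ⟨(hfr P hPF).2, (hfs P hPF).2, (hft P hPF).2⟩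
      · intro P hP Q hQ
        obtain ⟨hPF, hPy⟩ := Finset.mem_filter.mp hP
        obtain ⟨hQF, hQy⟩ := Finset.mem_filter.mp hQ
        have hgg : g P = g Q := by
          have : f P = f Q := by rw [hPy, hQy]
          rw [hf] at this
          simp only [Prod.mk.injEq] at this
          exact this.2.2.2
        have hp0 : (0 : ℝ) ≤ (P.1 : ℝ) / P.2.2 * K / U := by positivity
        have hq0 : (0 : ℝ) ≤ (Q.1 : ℝ) / Q.2.2 * K / U := by positivity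
        have hp1 := Nat.floor_le hp0
        have hp2 := Nat.lt_floor_add_one ((P.1 : ℝ) / P.2.2 * K / U)
        have hq1 := Nat.floor_le hq0
        have hq2 := Nat.lt_floor_add_one ((Q.1 : ℝ) / Q.2.2 * K / U)
        simp only [hg] at hgg
        rw [hgg] at hp1 hp2
        have habs : |(P.1 : ℝ) / P.2.2 * K / U - (Q.1 : ℝ) / Q.2.2 * K / U| ≤ 1 := by
          rw [abs_le]; constructor <;> linarith
        have e : (P.1 : ℝ) / P.2.2 * K / U - (Q.1 : ℝ) / Q.2.2 * K / U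
            = ((P.1 : ℝ) / P.2.2 - (Q.1 : ℝ) / Q.2.2) * (K / U) := by ring
        rw [e, abs_mul, abs_of_pos (by positivity : (0 : ℝ) < K / U)] at habs
        calc |(P.1 : ℝ) / P.2.2 - (Q.1 : ℝ) / Q.2.2|
            = |(P.1 : ℝ) / P.2.2 - (Q.1 : ℝ) / Q.2.2| * (K / U) * (U / K) := by
              field_simp
          _ ≤ 1 * (U / K) := mul_le_mul_of_nonneg_right habs (by positivity)
          _ = U / K := one_mul _
  have hcard : F.card ≤ j * T.card :=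
    Finset.card_le_mul_card_image_of_maps_to hmaps j hfib
  have hTc : (T.card : ℝ) ≤ (C * (a : ℝ) ^ ε) * ((C * (b : ℝ) ^ ε) * ((C * (c : ℝ) ^ ε) * (2 * K))) := by
    rw [hT, Finset.card_product, Finset.card_product, Finset.card_product, Finset.card_range]
    push_cast
    have hMK : (M : ℝ) + 1 ≤ 2 * K := by
      have : (M : ℝ) ≤ K := Nat.floor_le hK0.le
      linarith
    gcongr
  have hpow : ((a * b * c : ℕ) : ℝ) ^ ε = (a : ℝ) ^ ε * (b : ℝ) ^ ε * (c : ℝ) ^ ε := by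
    push_cast
    rw [Real.mul_rpow (by positivity) (by positivity), Real.mul_rpow (by positivity) (by positivity)]
  calc (F.card : ℝ) ≤ ((j * T.card : ℕ) : ℝ) := by exact_mod_cast hcard
    _ = j * (T.card : ℝ) := by push_cast; ring
    _ ≤ j * ((C * (a : ℝ) ^ ε) * ((C * (b : ℝ) ^ ε) * ((C * (c : ℝ) ^ ε) * (2 * K)))) :=
        mul_le_mul_of_nonneg_left hTc (by positivity)
    _ = 2 * j * C ^ 3 * ((a * b * c : ℕ) : ℝ) ^ ε * K := by rw [hpow]; ring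

end Pool.Agent.Helper92.ABC
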